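import Pool.Agent.Helper37.KDB.Extra
import Pool.Agent.Helper37.KDB.St.P5
import Pool.Agent.Helper37.KDB.St.P8
import Pool.Agent.Helper37.KDB.St.P9
import Pool.Agent.Helper37.KDB.St.P10

/-! Project KDB, piece P14: the number of remembered jumps. -/

set_option autoImplicit false

namespace KDB.I.P14

open MeasureTheory KDB
open scoped ENNReal

variable (p : Par)

private theorem h_tau (hp : p.Ok) (m : ℕ) : p.h * p.tau (m + 1) = (p.L : ℝ) ^ (m + 1) := by
  have h1 : (0 : ℝ) < p.H := by exact_mod_cast hp.hH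
  have h2 : (0 : ℝ) < p.L := by
    have := hp.hL
    exact_mod_cast (by omega : 0 < p.L)
  unfold Par.h Par.tau
  push_cast
  rw [pow_add (p.L : ℝ) (m + 1) p.q]
  field_simp

private theorem geo (L : ℝ) (hL : 1000 ≤ L) (m n : ℕ) :
    ∑ k ∈ Finset.Ico m n, (L ^ k)⁻¹ ≤ 2 * (L ^ m)⁻¹ := by
  rcases le_or_gt m n with h | h
  · have h0 : (0 : ℝ) < L := by linarith
    have key : ∑ k ∈ Finset.Ico m n, (L ^ k)⁻¹ ≤ 2 * (L ^ m)⁻¹ - 2 * (L ^ n)⁻¹ := by
      induction n, h using Nat.le_induction with
      | base => simp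
      | succ n hn ih =>
        rw [Finset.sum_Ico_succ_top hn]
        have h1 : (L ^ (n + 1))⁻¹ = (L ^ n)⁻¹ * L⁻¹ := by rw [pow_succ, mul_inv]
        have h2 : L⁻¹ ≤ 1 / 2 := by
          rw [inv_eq_one_div]
          exact one_div_le_one_div_of_le (by norm_num) (by linarith)
        have h3 : 0 < (L ^ n)⁻¹ := by positivity
        have h4 : (L ^ n)⁻¹ * L⁻¹ ≤ (L ^ n)⁻¹ * (1 / 2) :=
          mul_le_mul_of_nonneg_left h2 h3.le
        rw [h1]
        linarith
    have h3 : 0 < (L ^ n)⁻¹ := by positivity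
    linarith
  · rw [Finset.Ico_eq_empty_of_le h.le]
    have h0 : (0 : ℝ) < L := by linarith
    simp only [Finset.sum_empty]
    positivity

private theorem pring_nonneg (hp : p.Ok) (k j : ℕ) : 0 ≤ p.pring k j := by
  unfold Par.pring
  have h1 := (chi_bounds p k j).1
  have h2 := hp.hmu.le
  positivity

/-- the weights of the levels -/
private noncomputable def cc (m i : ℕ) : ℝ := if m < i then Real.exp 1 - 1 else 0

private theorem cc_nonneg (m i : ℕ) : 0 ≤ cc m i := by
  unfold cc
  split_ifs
  · have := Real.add_one_le_exp (1 : ℝ)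
    linarith
  · exact le_rfl

private theorem exp_one_le : Real.exp 1 - 1 ≤ 2 := by
  have := Real.exp_one_lt_d9
  linarith

private theorem exp_ind (m i : ℕ) :
    Real.exp (if m < i then (1 : ℝ) else 0) - 1 = cc m i := by
  unfold cc
  split_ifs <;> simp

theorem prob_nu (hp : p.Reg) (hH : p.Hok) (N t : ℕ) (ht : t ≤ N) (htn : t ≤ p.tau p.n) :
    p.pathLaw N {om | p.K1 * p.n < p.nuf (p.exte N om) t} ≤
      ENNReal.ofReal ((p.L : ℝ) ^ (-(7 / 5 : ℝ) * p.n)) := by
  classical
  have hok := hp.toOk
  have hL0 : (0 : ℝ) < p.L := by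
    have := hok.hL
    exact_mod_cast (by omega : 0 < p.L)
  have hL1 : (1000 : ℝ) ≤ p.L := by exact_mod_cast hok.hL
  have hh : 0 ≤ p.h := by
    unfold Par.h
    positivity
  have hmu := hok.hmu
  have hlam := hok.hlam
  set A : ℝ := p.lam * (2 ^ p.d * p.d * p.q) with hA
  have hA0 : 0 ≤ A := by
    rw [hA]
    positivity
  let KK : ℕ → ℝ := fun m => p.h * ∑ k ∈ Finset.Ico m p.n, 2 * (A * ((p.L : ℝ) ^ k)⁻¹)
  let RR : ℕ → ℝ := fun j => ∑ k ∈ Finset.range p.n,
    if p.mst t j < k + 1 then p.pring k j * 2 else 0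
  -- the Chernoff bound
  have h1 := chernoff_sum p hok hH N t ht
    (fun j w => if p.mst t j < p.kl w then (1 : ℝ) else 0)
    (fun j k => if p.mst t j < k + 1 then (1 : ℝ) else 0)
    (fun j => (measurable_from_nat (f := fun i : ℕ => if p.mst t j < i then (1 : ℝ) else 0)).comp
      (kl_meas p))
    (fun j w => by positivity) (fun j k => by positivity)
    (fun j hj => by
      simp only [exp_ind]
      exact (kick_lv p hok (p.mst t j) (cc (p.mst t j))
        (fun i hi => by simp [cc, Nat.not_lt.2 hi]) (cc_nonneg _)).1)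
    (fun j => KK (p.mst t j) + RR j)
    (fun j hj => by
      simp only [exp_ind]
      refine add_le_add ?_ ?_
      · refine mul_le_mul_of_nonneg_left ?_ hh
        refine (kick_lv p hok (p.mst t j) (cc (p.mst t j))
          (fun i hi => by simp [cc, Nat.not_lt.2 hi]) (cc_nonneg _)).2.trans ?_
        refine Finset.sum_le_sum fun k hk => ?_
        refine mul_le_mul_of_nonneg_right ?_ (by positivity)
        unfold cc
        split_ifs
        · exact exp_one_le
        · norm_num
      · refine Finset.sum_le_sum fun k _ => ?_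
        unfold cc
        split_ifs
        · exact mul_le_mul_of_nonneg_left exp_one_le (pring_nonneg p hok k j)
        · simp)
    (fun om => (p.nuf om t : ℝ))
    (fun om => by
      unfold Par.nuf
      rw [Finset.card_filter]
      push_cast
      refine le_of_eq (Finset.sum_congr rfl fun j _ => ?_)
      unfold Par.lv
      by_cases h0 : (om j).lab = 0
      · simp [h0]
      · by_cases h1 : (om j).lab = 1
        · simp [h1]
        · have e : (om j).lab - 2 + 1 = (om j).lab - 1 := by omega
          simp only [h0, h1, if_false, e])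
    (p.K1 * p.n)
  refine h1.trans (ENNReal.ofReal_le_ofReal ?_)
  rw [Real.rpow_def_of_pos hL0]
  refine Real.exp_le_exp.2 ?_
  -- kicks
  have hK : ∑ j ∈ Finset.range t, KK (p.mst t j) ≤ p.n * (1 / 50) := by
    have hKK : ∀ m, 0 ≤ KK m := fun m => mul_nonneg hh (Finset.sum_nonneg fun k _ => by positivity)
    refine (sum_mst p hok t htn (fun m _ => KK m) (fun m _ => hKK m)).trans ?_
    have h2 : ∀ m ∈ Finset.range p.n,
        ∑ j ∈ Finset.Ico (t - MM * p.tau (m + 1)) t, KK m ≤ 1 / 50 := by
      intro m _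
      rw [Finset.sum_const, Nat.card_Ico, nsmul_eq_mul]
      have h3 : ((t - (t - MM * p.tau (m + 1)) : ℕ) : ℝ) ≤ 50 * p.tau (m + 1) := by
        have : t - (t - MM * p.tau (m + 1)) ≤ 50 * p.tau (m + 1) := by
          unfold MM
          omega
        exact_mod_cast this
      refine (mul_le_mul_of_nonneg_right h3 (hKK m)).trans ?_
      have h4 : (50 : ℝ) * p.tau (m + 1) * KK m =
          50 * (p.h * p.tau (m + 1)) * ∑ k ∈ Finset.Ico m p.n, 2 * (A * ((p.L : ℝ) ^ k)⁻¹) := by
        show (50 : ℝ) * p.tau (m + 1) * (p.h * _) = _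
        ring
      rw [h4, h_tau p hok, ← Finset.mul_sum, ← Finset.mul_sum]
      have h5 := geo p.L hL1 m p.n
      have h6 : A * p.L ≤ 1 / 10000 := by
        refine le_trans ?_ hp.r4
        rw [hA]
        have e1 : (p.lam * (2 ^ p.d * p.d * p.q)) ≤ p.lam * ((2 : ℝ) ^ p.d * p.d * (p.q + 1)) := by
          refine mul_le_mul_of_nonneg_left ?_ hlam.le
          refine mul_le_mul_of_nonneg_left (by linarith) (by positivity)
        refine mul_le_mul e1 ?_ hL0.le (by positivity)
        exact le_self_pow₀ (by linarith) (by norm_num)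
      calc 50 * (p.L : ℝ) ^ (m + 1) * (2 * (A * ∑ k ∈ Finset.Ico m p.n, ((p.L : ℝ) ^ k)⁻¹))
          ≤ 50 * (p.L : ℝ) ^ (m + 1) * (2 * (A * (2 * ((p.L : ℝ) ^ m)⁻¹))) := by gcongr
        _ = 200 * (A * p.L) := by
            rw [pow_succ]
            field_simp
            ring
        _ ≤ 1 / 50 := by linarith
    calc ∑ m ∈ Finset.range p.n, ∑ j ∈ Finset.Ico (t - MM * p.tau (m + 1)) t, KK m
        ≤ ∑ _m ∈ Finset.range p.n, (1 / 50 : ℝ) := Finset.sum_le_sum h2
      _ = p.n * (1 / 50) := by rw [Finset.sum_const, Finset.card_range, nsmul_eq_mul]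
  -- rings
  have hR : ∑ j ∈ Finset.range t, RR j ≤ p.n * (208 * p.mu) := by
    show ∑ j ∈ Finset.range t, ∑ k ∈ Finset.range p.n,
      (if p.mst t j < k + 1 then p.pring k j * 2 else 0) ≤ _
    rw [Finset.sum_comm]
    have h2 : ∀ k ∈ Finset.range p.n, ∑ j ∈ Finset.range t,
        (if p.mst t j < k + 1 then p.pring k j * 2 else 0) ≤ 208 * p.mu := by
      intro k _
      rw [← Finset.sum_filter]
      have h3 : (Finset.range t).filter (fun j => p.mst t j < k + 1) ⊆
          Finset.Ico (t - MM * p.tau (k + 1)) t := by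
        intro j hj
        rw [Finset.mem_filter, Finset.mem_range] at hj
        rw [Finset.mem_Ico]
        refine ⟨?_, hj.1⟩
        have h4 := (mst_spec p hok t j hj.1 htn).2
        have h5 : p.tau (p.mst t j + 1) ≤ p.tau (k + 1) := by
          unfold Par.tau
          refine Nat.mul_le_mul_left _ (Nat.pow_le_pow_right ?_ ?_)
          · have := hok.hL
            omega
          · have := hj.2
            omega
        have h6 := Nat.mul_le_mul_left MM h5
        omega
      refine (Finset.sum_le_sum_of_subset_of_nonneg h3 fun j _ _ =>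
        mul_nonneg (pring_nonneg p hok k j) (by norm_num)).trans ?_
      rw [← Finset.sum_mul]
      have h7 := ring_mass p hok k (t - MM * p.tau (k + 1)) t
      have h8 : ((t - (t - MM * p.tau (k + 1)) : ℕ) : ℝ) / p.tau (k + 1) ≤ 50 := by
        have h9 : (0 : ℝ) < p.tau (k + 1) := by
          unfold Par.tau
          have := hok.hH
          have h10 : (0 : ℝ) < p.H := by exact_mod_cast hok.hH
          push_cast
          positivity
        rw [div_le_iff₀ h9]
        have : t - (t - MM * p.tau (k + 1)) ≤ 50 * p.tau (k + 1) := by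
          unfold MM
          omega
        exact_mod_cast this
      have h9 : 2 * p.mu * (((t - (t - MM * p.tau (k + 1)) : ℕ) : ℝ) / p.tau (k + 1) + 2) ≤
          2 * p.mu * 52 := by
        refine mul_le_mul_of_nonneg_left (by linarith) (by positivity)
      linarith
    calc _ ≤ ∑ _k ∈ Finset.range p.n, 208 * p.mu := Finset.sum_le_sum h2
      _ = p.n * (208 * p.mu) := by rw [Finset.sum_const, Finset.card_range, nsmul_eq_mul]
  rw [Finset.sum_add_distrib]
  have hn : (0 : ℝ) ≤ p.n := by positivity
  have h2 := hp.r2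
  have h3 := hp.r1
  unfold Par.K1
  have h4 : (p.n : ℝ) * (1 / 50) + p.n * (208 * p.mu) - 400 * p.mu * p.n ≤
      Real.log p.L * (-(7 / 5) * p.n) := by
    have h5 : 0 ≤ (p.n : ℝ) * (192 * p.mu - 1 / 50 - 7 / 5 * Real.log p.L) := by
      refine mul_nonneg hn ?_
      linarith
    linarith
  linarith

end KDB.I.P14
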